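import Mathlib
import Pool.Agent.U11.Fam
import Pool.Agent.U11.Dens

set_option autoImplicit false

/-!
# The uniform Harbourne-Hirschowitz conjecture for 11 and for 15 points: almost all multiplicities

For `n = 11` and for `n = 15` the multiplicities `m` for which the space of the forms of degree `d` vanishing
to order `m` at `n` general points does not have the expected dimension in EVERY degree `d` (with one open
set of configurations for all degrees) form a set of natural density zero.
-/

namespace Pool.Agent.Results.MP_d03834_ag.DensityOneElevenFifteen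

open MvPolynomial Filter Topology

/-- For general points `P 1, …, P n` (outside the hypersurface `F = 0` of the space of all
configurations) the space of the forms of degree `d` which vanish to order at least `m` at all the
points has the expected dimension, for every degree `d`. -/
def AllDegrees (n m : ℕ) : Prop :=
  ∃ F : MvPolynomial (Fin n × Fin 2) ℂ, F ≠ 0 ∧
    ∀ P : Fin n → Fin 2 → ℂ,
      MvPolynomial.eval (fun ij : Fin n × Fin 2 => P ij.1 ij.2) F ≠ 0 →
      ∀ d : ℕ,
        Module.finrank ℂ
          ↥(MvPolynomial.homogeneousSubmodule (Fin 3) ℂ d ⊓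
            Submodule.restrictScalars ℂ
              (⨅ i : Fin n,
                (Ideal.span
                  ({MvPolynomial.X 0 - MvPolynomial.C (P i 0) * MvPolynomial.X 2,
                    MvPolynomial.X 1 - MvPolynomial.C (P i 1) * MvPolynomial.X 2} :
                    Set (MvPolynomial (Fin 3) ℂ))) ^ m))
        = Nat.choose (d + 2) 2 - n * Nat.choose (m + 1) 2

/-- a multiplicity which is not settled gives a degree in the window -/
theorem exists_degree {n : ℕ} (hn : n = 11 ∨ n = 15) {ε : ℝ} (hε : 0 < ε) :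
    ∃ m₀ : ℕ, ∀ m : ℕ, m₀ ≤ m → ¬ AllDegrees n m → ∃ d : ℕ, 3 ∣ d ∧
      (√(n : ℝ) - 3) / 2 - ε ≤ (d : ℝ) - √(n : ℝ) * m ∧
      (d : ℝ) - √(n : ℝ) * m ≤ (√(n : ℝ) - 3) / 2 := by
  obtain ⟨m₀, hm₀⟩ := U11.uniform4 (n := n) (by omega) hε
  refine ⟨m₀, fun m hm h => ?_⟩
  by_contra hcon
  push Not at hcon
  apply h
  obtain ⟨F, hF, hF'⟩ := hm₀ m hm
  refine ⟨F.map (algebraMap ℚ ℂ), H932R3.map_ne_zero_of hF, fun P hP d => ?_⟩
  rw [MvPolynomial.eval_map] at hP
  have h1 := hF' P hP d (by
    by_cases h3 : 3 ∣ d
    · right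
      rcases le_or_gt ((√(n : ℝ) - 3) / 2 - ε) ((d : ℝ) - √(n : ℝ) * m) with h4 | h4
      · right
        exact ⟨h3, (hcon d h3 h4).le⟩
      · left
        exact ⟨h3, h4.le⟩
    · left
      exact ⟨h3, by omega⟩)
  unfold H932R3.ExpDim at h1
  simpa using h1

open Classical in
/-- **For 11 and for 15 points the conjecture holds in every degree for almost all multiplicities.** -/
theorem result (n : ℕ) (hn : n = 11 ∨ n = 15) :
    Tendsto (fun M : ℕ =>
      (((Finset.Icc 1 M).filter fun m => ¬ AllDegrees n m).card : ℝ) / M) atTop (𝓝 0) := by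
  have hsq : ¬ IsSquare n := by
    rintro ⟨k, hk⟩
    rcases hn with h | h <;> rw [h] at hk
    · have : k ≤ 3 := by nlinarith
      interval_cases k <;> omega
    · have : k ≤ 3 := by nlinarith
      interval_cases k <;> omega
  have hirr : Irrational √(n : ℝ) := by
    rw [irrational_sqrt_natCast_iff]
    exact hsq
  have hirr3 : Irrational (√(n : ℝ) / 3) := by
    have := hirr.div_natCast (m := 3) (by norm_num)
    simpa using this
  refine U11.density_zero hirr3 ((√(n : ℝ) - 3) / 6) _ fun ε hε => ?_
  obtain ⟨m₀, hm₀⟩ := exists_degree hn (ε := 3 * ε) (by positivity)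
  refine ⟨m₀, fun m hm h => ?_⟩
  obtain ⟨d, ⟨e, rfl⟩, h4, h5⟩ := hm₀ m hm h
  push_cast at h4 h5
  refine ⟨e, ?_, ?_⟩
  · push_cast
    linarith
  · push_cast
    linarith

end Pool.Agent.Results.MP_d03834_ag.DensityOneElevenFifteen
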