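import Pool.Agent.U828.KD.SH

/-!
# The uniform Harbourne-Hirschowitz conjecture for multiplicities given by arbitrary functions of a given order

Let `f` be an ARBITRARY function on the natural numbers of some order `c > 0`: for one `d > c` the differences of
order `d` of `f` have a constant sign and are `t ^ (c - d + o(1))` in absolute value. There is no smoothness and no formula; examples are `t ^ c` with `c` not an integer, `t ^ j log t`, the functions of
a Hardy field with the same growth, all these plus arbitrary real polynomials of degree below the order of the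
differences, and irregular functions.

**Theorem.** For every `n ≥ 10` and every such `f` there is a `κ > 0` such that for all large `N` all but at most
`bad n * N + N ^ (1 - κ)` of the integers `t` in `(N, 2 N]` with `f t ≥ 1` have this property: for `n` general points
the spaces of the curves of degree `e` with multiplicity `⌊f t⌋` at the points have the expected dimension in EVERY
degree `e`. Here `bad n < 1` is zero for `n ≥ 37`, for `n = 13, 21` and for the squares, and `bad 10 < 0.163`,
`bad 11 < 0.053`, `bad 12 < 0.465`, `bad 14 < 0.738`, `bad 15 < 0.146`.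

The density of the bad multiplicities in the set of ALL multiplicities is bounded by the same numbers in the starting
files (`DensityOfMultiplicities` for `n = 11, 15`); the sets `{⌊f t⌋}` have density zero as soon as `c > 1`. The new
ingredient is a derivative test for arbitrary functions (`Pool.Agent.U828.KD.order_exp`): the numbers `√n f(t)` are
equidistributed modulo one up to a power of `N`, and so are the pairs `(f(t), √n f(t))`, which is needed because of the
integral part.
-/

set_option autoImplicit false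

namespace Pool.Agent.Results.MP_d03834_ag.FunctionsOfGivenOrder

open MvPolynomial

/-- For general points `P 1, …, P n` (outside the hypersurface `F = 0` of the space of all
configurations) the space of the forms of degree `d` which vanish to order at least `m` at all the
points has the expected dimension, for every degree `d`. -/
def AllDegrees (n m : ℕ) : Prop :=
  ∃ F : MvPolynomial (Fin n × Fin 2) ℂ, F ≠ 0 ∧
    ∀ P : Fin n → Fin 2 → ℂ,
      MvPolynomial.eval (fun ij : Fin n × Fin 2 => P ij.1 ij.2) F ≠ 0 →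
      ∀ d : ℕ,
        Module.finrank ℂ
          ↥(MvPolynomial.homogeneousSubmodule (Fin 3) ℂ d ⊓
            Submodule.restrictScalars ℂ
              (⨅ i : Fin n,
                (Ideal.span
                  ({MvPolynomial.X 0 - MvPolynomial.C (P i 0) * MvPolynomial.X 2,
                    MvPolynomial.X 1 - MvPolynomial.C (P i 1) * MvPolynomial.X 2} :
                    Set (MvPolynomial (Fin 3) ℂ))) ^ m))
        = Nat.choose (d + 2) 2 - n * Nat.choose (m + 1) 2

/-- The differences of order `d` of `f` have a constant sign and are `t ^ (c - d + o(1))` in absolute value. -/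
def Order (d : ℕ) (c : ℝ) (f : ℕ → ℝ) : Prop :=
  ∀ ε : ℝ, 0 < ε → ∃ T : ℕ,
    (∀ t : ℕ, T ≤ t → (t : ℝ) ^ (c - d - ε) ≤ (fwdDiff 1)^[d] f t ∧
      (fwdDiff 1)^[d] f t ≤ (t : ℝ) ^ (c - d + ε)) ∨
    (∀ t : ℕ, T ≤ t → (t : ℝ) ^ (c - d - ε) ≤ -(fwdDiff 1)^[d] f t ∧
      -(fwdDiff 1)^[d] f t ≤ (t : ℝ) ^ (c - d + ε))

open Classical in
/-- The bound for the proportion of the bad multiplicities for `n` points. -/
noncomputable def bad (n : ℕ) : ℝ :=
  if 37 ≤ n ∨ n = 13 ∨ n = 21 ∨ IsSquare n then 0
  else if n = 11 ∨ n = 15 then (√(n : ℝ) - 3) / 6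
  else (min (√(n : ℝ) - 3) (2 / 3 + 9 / (4 * √(n : ℝ))) +
    min (√(n : ℝ) - 3) (2 / 3 + 1 / (4 * √(n : ℝ)))) / 2

theorem allDegrees_of {n m : ℕ} (h : Pool.Agent.N141.SG.Ex n m) : AllDegrees n m := by
  obtain ⟨F, hF, hF'⟩ := h
  refine ⟨F.map (algebraMap ℚ ℂ), Pool.Agent.H932R3.map_ne_zero_of hF, fun P hP d => ?_⟩
  rw [MvPolynomial.eval_map] at hP
  have h1 := hF' P hP d
  unfold Pool.Agent.H932R3.ExpDim at h1
  rw [Finset.sum_const, Finset.card_univ, Fintype.card_fin, smul_eq_mul] at h1
  exact h1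

/-- **Main result.** -/
theorem result :
    (∀ n : ℕ, 10 ≤ n → ∀ (d : ℕ) (c : ℝ), 2 ≤ d → 0 < c → c < d → ∀ f : ℕ → ℝ, Order d c f →
      ∃ κ : ℝ, 0 < κ ∧ ∃ N₀ : ℕ, ∀ N : ℕ, N₀ ≤ N →
        ({t : ℕ | t ∈ Finset.Ioc N (2 * N) ∧ 1 ≤ f t ∧ ¬ AllDegrees n ⌊f t⌋₊}.ncard : ℝ) ≤
          bad n * N + (N : ℝ) ^ (1 - κ)) ∧
    (∀ n : ℕ, 10 ≤ n → bad n < 1) ∧
    bad 10 < 0.163 ∧ bad 11 < 0.053 ∧ bad 12 < 0.465 ∧ bad 14 < 0.738 ∧ bad 15 < 0.146 := by
  refine ⟨fun n hn d c hd hc0 hcd f hf => ?_, fun n hn => Pool.Agent.N141.SG.badU_lt hn,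
    Pool.Agent.N141.SG.badU_vals⟩
  obtain ⟨κ, hκ, N₀, h⟩ := Pool.Agent.U828.KD.one_order d hd c hc0 hcd f hf hn
  refine ⟨κ, hκ, N₀, fun N hN => le_trans ?_ (h N hN)⟩
  have h1 : {t : ℕ | t ∈ Finset.Ioc N (2 * N) ∧ 1 ≤ f t ∧ ¬ AllDegrees n ⌊f t⌋₊} ⊆
      {t : ℕ | t ∈ Finset.Ioc N (2 * N) ∧ 1 ≤ f t ∧ ¬ Pool.Agent.N141.SG.Ex n ⌊f t⌋₊} :=
    fun t ht => ⟨ht.1, ht.2.1, fun h2 => ht.2.2 (allDegrees_of h2)⟩
  exact_mod_cast Set.ncard_le_ncard h1 ((Finset.finite_toSet (Finset.Ioc N (2 * N))).subset fun t ht => ht.1)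

end Pool.Agent.Results.MP_d03834_ag.FunctionsOfGivenOrder
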