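import Mathlib
import Pool.Agent.U11.Irr3

set_option autoImplicit false

/-!
# The uniform Harbourne-Hirschowitz conjecture for 11 and for 15 points: every multiplicity, every
degree, up to one irreducible curve

Let `n = 11` or `n = 15` and let `m ≥ 1` be ANY multiplicity. For `n` general points of the complex
projective plane (one open set for all degrees) and EVERY degree `d` the space of the forms of degree
`d` vanishing to order `m` at the points has the expected dimension, or there are fewer monomials than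
conditions and the dimension is one (a single curve). For `n = 11` this single curve is irreducible and
has multiplicity exactly `m` at each of the points. In particular the dimension is the expected one in
every degree with `(d + 1) (d + 2) / 2 ≥ n m (m + 1) / 2`, and whenever there are two different curves.
The second case is only possible if `3` divides `d` and
`3 (√n - 3) / (√n + 3) ≤ d - √n m < (√n - 3) / 2`. The dimension is the same for `n = 27` in the degrees
divisible by three.
-/

namespace Pool.Agent.Results.MP_d03834_ag.OneIrreducibleCurve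

open MvPolynomial

/-- the homogeneous ideal of the point `(p 0 : p 1 : 1)` -/
noncomputable def point (p : Fin 2 → ℂ) : Ideal (MvPolynomial (Fin 3) ℂ) :=
  Ideal.span ({X 0 - C (p 0) * X 2, X 1 - C (p 1) * X 2} : Set (MvPolynomial (Fin 3) ℂ))

/-- the forms of degree `d` which vanish to order at least `m` at all the points
`(P i 0 : P i 1 : 1)` -/
noncomputable def forms {n : ℕ} (m : ℕ) (P : Fin n → Fin 2 → ℂ) (d : ℕ) :
    Submodule ℂ (MvPolynomial (Fin 3) ℂ) :=
  homogeneousSubmodule (Fin 3) ℂ d ⊓ Submodule.restrictScalars ℂ (⨅ i : Fin n, point (P i) ^ m)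

/-- Let `n` be `11`, `15` or `27` and `m ≥ 1`. For all points outside one hypersurface of the space of all
configurations and every degree `d` (for `n = 27`: every `d` divisible by three) the space of the
forms of degree `d` with multiplicity at least `m` at the `n` points has the dimension
`max (0, C(d+2,2) - n C(m+1,2))`, or `3 ∣ d`, `C(d+2,2) < n C(m+1,2)`,
`3 (√n - 3) ≤ (√n + 3) (d - √n m)`, `2 d + 3 < √n (2 m + 1)`, the dimension is one and, if `n = 11`, every
nonzero form of this space is irreducible with multiplicity exactly `m` at each of the points. -/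
theorem result (n : ℕ) (hn : n = 11 ∨ n = 15 ∨ n = 27) (m : ℕ) (hm : 1 ≤ m) :
    ∃ F : MvPolynomial (Fin n × Fin 2) ℂ, F ≠ 0 ∧
      ∀ P : Fin n → Fin 2 → ℂ, eval (fun ij : Fin n × Fin 2 => P ij.1 ij.2) F ≠ 0 →
      ∀ d : ℕ, (n = 27 → 3 ∣ d) →
        Module.finrank ℂ (forms m P d) = (d + 2).choose 2 - n * (m + 1).choose 2 ∨
        (3 ∣ d ∧ 3 * (√(n : ℝ) - 3) ≤ (√(n : ℝ) + 3) * (d - √(n : ℝ) * m) ∧
          2 * (d : ℝ) + 3 < √(n : ℝ) * (2 * m + 1) ∧ (d + 2).choose 2 < n * (m + 1).choose 2 ∧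
          Module.finrank ℂ (forms m P d) = 1 ∧
          (n = 11 → ∀ f ∈ forms m P d, f ≠ 0 →
            Irreducible f ∧ ∀ i, f ∈ point (P i) ^ m ∧ f ∉ point (P i) ^ (m + 1))) := by
  obtain ⟨F1, hF1, h1⟩ := U11.uniform_dims' hn hm
  have p3 : ∃ F : MvPolynomial (Fin n × Fin 2) ℚ, F ≠ 0 ∧
      ∀ (P : Fin n → Fin 2 → ℂ), aeval (fun ij : Fin n × Fin 2 => P ij.1 ij.2) F ≠ 0 →
      ∀ d : ℕ, n = 11 → 2 * (d : ℝ) + 3 < √(n : ℝ) * (2 * m + 1) →
        ∀ f ∈ forms m P d, f ≠ 0 → Irreducible f ∧ ∀ i, f ∉ point (P i) ^ (m + 1) := by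
    by_cases h11 : n = 11
    · subst h11
      obtain ⟨F, hF, hF'⟩ := U11.irr_open hm
      refine ⟨F, hF, fun P hP d _ hd f hf hf0 => hF' P hP d ?_ f hf hf0⟩
      push_cast at hd
      have hsq := Pool.Agent.TH864.SX.sq11
      have hs0 : 0 < √(11 : ℝ) := Real.sqrt_pos.2 (by norm_num)
      have h4 : √(11 : ℝ) * (2 * (d : ℝ) + 3) < √(11 : ℝ) * (√(11 : ℝ) * (2 * m + 1)) :=
        mul_lt_mul_of_pos_left hd hs0
      have h5 : √(11 : ℝ) * (√(11 : ℝ) * (2 * m + 1)) = 11 + 22 * (m : ℝ) := by
        linear_combination (2 * (m : ℝ) + 1) * hsq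
      linarith
    · exact ⟨1, one_ne_zero, fun P _ d hd => absurd hd h11⟩
  obtain ⟨F3, hF3, h3⟩ := p3
  refine ⟨(F1 * F3).map (algebraMap ℚ ℂ), H932R3.map_ne_zero_of (mul_ne_zero hF1 hF3),
    fun P hP d hd => ?_⟩
  rw [MvPolynomial.eval_map] at hP
  have hP' : aeval (fun ij : Fin n × Fin 2 => P ij.1 ij.2) (F1 * F3) ≠ 0 := hP
  rw [map_mul] at hP'
  rcases h1 P (left_ne_zero_of_mul hP') d hd with h5 | ⟨g1, g2, g3, g4, g5⟩
  · exact Or.inl h5
  · refine Or.inr ⟨g1, g2, g3, g4, g5, fun h11 f hf hf0 => ?_⟩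
    obtain ⟨k1, k2⟩ := h3 P (right_ne_zero_of_mul hP') d h11 g3 f hf hf0
    exact ⟨k1, fun i => ⟨(TH387.EX.mem_V.1 hf).2 i, k2 i⟩⟩

end Pool.Agent.Results.MP_d03834_ag.OneIrreducibleCurve
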